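import Pool.Agent.H60.GR.Growth

/-!
# MP_019c9a_nt: every non-prime restart value costs a constant factor

Fix `m ≥ 1`; `a(1) = 1`, `a(n) = |a(n-1) - gcd(a(n-1), m n - 1)|`, `b(k)` is the `k`-th zero and
`P(k) = m b(k) + m - 1`.

Between two zeros put `x = m n - 1`, `h = a(n-1)` and `T = x + m h`.  Then `gcd(h, x) = gcd(h, T)`, and `T`
changes only when the gcd `g` is not `1`, to `T - m (g - 1)`; at the zero `T = P(k+1)`.  As `g` divides `T` and
`h` goes down by one until it has a common factor with `T`, the waiting time is smaller than the least prime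
factor of `T`, hence smaller than `g`: at least half of such a piece (two thirds of the steps at most) is
made by nontrivial gcds.  So the number `t` of steps satisfies `3 t ≤ 2 P(k) + s`, where `s` is the least prime
factor of the last `T`, `T = P(k+1)`, and `P(k+1) = P(k) + m + m t`.  If `P(k+1)` is not prime,
`s² ≤ P(k+1)`, and `P(k+1) + 1 ≤ (6/7) (m+1) (P(k) + 1)` for large `k`.
-/

set_option autoImplicit false

namespace Pool.Agent.Results.MP_019c9a_nt.NonPrimeRestarts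

open Filter Topology

/-- The sequence `a(n)`, `n ≥ 1` (the value at `0` is not used). -/
def a (m : ℕ) : ℕ → ℕ
  | 0 => 0
  | 1 => 1
  | n + 2 => ((a m (n + 1) : ℤ) - (Nat.gcd (a m (n + 1)) (m * (n + 2) - 1) : ℤ)).natAbs

/-- `b(k)`, `k ≥ 1`: the `k`-th index `n ≥ 1` with `a(n) = 0`. -/
noncomputable def b (m k : ℕ) : ℕ := Nat.nth (fun n => 1 ≤ n ∧ a m n = 0) (k - 1)

/-- The restart value `P(k) = m b(k) + m - 1`, `k ≥ 1`. -/
noncomputable def P (m k : ℕ) : ℕ := m * b m k + m - 1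

theorem full (m : ℕ) : H60GR.Full m (a m) := by
  have hrec : ∀ n, 1 ≤ n → a m (n + 1) =
      ((a m n : ℤ) - (Nat.gcd (a m n) (m * (n + 1) - 1) : ℤ)).natAbs := by
    intro n hn
    obtain ⟨k, rfl⟩ : ∃ k, n = k + 1 := ⟨n - 1, by omega⟩
    rfl
  refine ⟨?_, rfl, ?_⟩
  · intro n hn hpos
    rw [hrec n hn]
    have h1 : Nat.gcd (a m n) (m * (n + 1) - 1) ≤ a m n := Nat.gcd_le_left _ hpos
    omega
  · intro n hn h0
    rw [hrec n hn, h0, Nat.gcd_zero_left]
    omega

/-- The facts about consecutive restart values. -/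
theorem step {m : ℕ} (hm : 1 ≤ m) {k : ℕ} (hk : 1 ≤ k) :
    P m (k + 1) + 1 ≤ (m + 1) * (P m k + 1) ∧
      3 * P m (k + 1) ≤ (2 * m + 3) * P m k + 3 * m + m * (P m (k + 1)).minFac := by
  obtain ⟨j, rfl⟩ : ∃ j, k = j + 1 := ⟨k - 1, by omega⟩
  obtain ⟨t, ht0, ht1, ht2, ht3⟩ := H60GR.nth_succ hm (full m) j
  have hb1 : b m (j + 1) = Nat.nth (H60GR.Zer (a m)) j := rfl
  have hb2 : b m (j + 1 + 1) = Nat.nth (H60GR.Zer (a m)) (j + 1) := rfl
  rw [← hb1, ← hb2] at ht1 ht3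
  rw [← hb1] at ht2
  have e1 : m * (b m (j + 1) + 1) - 1 = P m (j + 1) := by
    unfold P
    rw [mul_add, mul_one]
  have e2 : m * (b m (j + 1 + 1) + 1) - 1 = P m (j + 1 + 1) := by
    unfold P
    rw [mul_add, mul_one]
  rw [e1] at ht2
  rw [e1, e2] at ht3
  have e3 : P m (j + 1 + 1) = P m (j + 1) + m + m * t := by
    unfold P
    rw [ht1]
    have h1 : m * (b m (j + 1) + 1 + t) = m * b m (j + 1) + m + m * t := by ring
    omega
  constructor
  · rw [e3]
    have h2 : m * t ≤ m * P m (j + 1) := Nat.mul_le_mul_left m ht2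
    nlinarith
  · have h2 : m * (3 * t) ≤ m * (2 * P m (j + 1) + (P m (j + 1 + 1)).minFac) :=
      Nat.mul_le_mul_left m ht3
    have h3 : 3 * P m (j + 1 + 1) = 3 * P m (j + 1) + 3 * m + m * (3 * t) := by
      rw [e3]
      ring
    rw [h3]
    nlinarith

theorem large {m : ℕ} (hm : 1 ≤ m) {k : ℕ} (hk : 1 ≤ k) : k ≤ P m k + 1 := by
  have h1 := (Nat.nth_strictMono (H60GR.zer_infinite hm (full m))).le_apply (x := k - 1)
  have h2 : k - 1 ≤ b m k := h1
  have h3 : m * b m k + m - 1 + 1 = m * (b m k + 1) := by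
    rw [mul_add, mul_one]
    omega
  unfold P
  rw [h3]
  have h4 : k ≤ b m k + 1 := by omega
  exact h4.trans (Nat.le_mul_of_pos_left _ hm)

/-- Let `m ≥ 1`.  (1) `3 P(k+1) ≤ (2m+3) P(k) + 3m + m s` with `s` the least prime factor of `P(k+1)`, for all
`k ≥ 1`.  (2) There is a constant `C` with `P(K) ≤ C (6/7)^N (m+1)^K` for all `K`, where `N` is the number of
`k ≤ K` for which `P(k)` is not prime.  (3) The limit `c` of `P(k) / (m+1)^k` exists, it is at least `0`, and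
if it is positive then `P(k)` is prime for all large `k`. -/
theorem result (m : ℕ) (hm : 1 ≤ m) :
    (∀ k, 1 ≤ k →
      3 * P m (k + 1) ≤ (2 * m + 3) * P m k + 3 * m + m * (P m (k + 1)).minFac) ∧
    (∃ C : ℝ, ∀ K, (P m K : ℝ) ≤
      C * (6 / 7) ^ ((Finset.Icc 1 K).filter fun k => ¬ (P m k).Prime).card * ((m : ℝ) + 1) ^ K) ∧
    ∃ c : ℝ, 0 ≤ c ∧ Tendsto (fun k => (P m k : ℝ) / ((m : ℝ) + 1) ^ k) atTop (𝓝 c) ∧
      (0 < c → ∃ K, ∀ k, K ≤ k → (P m k).Prime) := by
  have hq : (0 : ℝ) < (m : ℝ) + 1 := by positivity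
  have hR : ∀ k, (0 : ℝ) < (P m k : ℝ) + 1 := fun k => by positivity
  have h1 : ∀ k, 1 ≤ k → (P m (k + 1) : ℝ) + 1 ≤ ((m : ℝ) + 1) * ((P m k : ℝ) + 1) := by
    intro k hk
    exact_mod_cast (step hm hk).1
  have h2 : ∀ k, 196 * (m + 1) + 1 ≤ k → ¬ (P m (k + 1)).Prime →
      (P m (k + 1) : ℝ) + 1 ≤ 6 / 7 * (((m : ℝ) + 1) * ((P m k : ℝ) + 1)) := by
    intro k hk hnp
    obtain ⟨h3, h4⟩ := step hm (show 1 ≤ k by omega)
    have h5 := large hm (show 1 ≤ k by omega)
    have h6 : k + 1 ≤ P m (k + 1) + 1 := large hm (by omega)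
    have h7 : (P m (k + 1)).minFac * (P m (k + 1)).minFac ≤ P m (k + 1) := by
      have := Nat.minFac_sq_le_self (show 0 < P m (k + 1) by omega) hnp
      rwa [sq] at this
    have h8 := H60GR.loss (m := m) (R := P m k + 1) (R' := P m (k + 1) + 1)
      (s := (P m (k + 1)).minFac) hm (by nlinarith) (by omega) h3 (by omega)
    have h9 : (7 : ℝ) * ((P m (k + 1) : ℝ) + 1) ≤ 6 * (((m : ℝ) + 1) * ((P m k : ℝ) + 1)) := by
      exact_mod_cast h8
    linarith
  refine ⟨fun k hk => (step hm hk).2, ?_, ?_⟩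
  · obtain ⟨C, -, hC⟩ := H60GR.iterate (bad := fun k => ¬ (P m k).Prime) hq hR h1 h2
    exact ⟨C, fun K => le_trans (by linarith) (hC K)⟩
  · obtain ⟨c, hc0, hct, hcp⟩ := H60GR.limit (bad := fun k => ¬ (P m k).Prime) hq hR h1 h2
    refine ⟨c, hc0, ?_, ?_⟩
    · have h3 : Tendsto (fun k : ℕ => (((m : ℝ) + 1) ^ k)⁻¹) atTop (𝓝 0) := by
        have h4 : (1 : ℝ) < (m : ℝ) + 1 := by
          have : (1 : ℝ) ≤ m := by exact_mod_cast hm
          linarith
        exact tendsto_inv_atTop_zero.comp (tendsto_pow_atTop_atTop_of_one_lt h4)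
      have h5 := hct.sub h3
      rw [sub_zero] at h5
      refine h5.congr fun k => ?_
      rw [add_div, one_div, add_sub_cancel_right]
    · intro hc
      obtain ⟨K, hK⟩ := hcp hc
      exact ⟨K, fun k hk => not_not.1 (hK k hk)⟩

end Pool.Agent.Results.MP_019c9a_nt.NonPrimeRestarts
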